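import Pool.Agent.Helper5.WD.Stmts

/-! # XF1: adding a set of good vertices, with weighted degrees -/

set_option autoImplicit false

open Finset Pool.Agent.Helper8.UN Pool.Agent.Helper5.FV

namespace Pool.Agent.Helper5.WD

theorem xf1_mf {α : Type} (p : α → Prop) (dp : DecidablePred p) (s : Finset α) (a : α) :
    a ∈ @Finset.filter α p dp s ↔ a ∈ s ∧ p a := Finset.mem_filter

theorem xf1_det {n : ℕ} (E : Finset (Finset (Fin n))) (hT : Two E) (f : Fin n → ℕ) (y : Fin n)
    (i j : ℕ) (e : Finset (Fin n)) (he : e ∈ E) (hi : ∀ u ∈ e, u ≠ y → f u = i)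
    (hj : ∀ u ∈ e, u ≠ y → f u = j) : i = j := by
  have h1 : 1 < e.card := hT e he
  obtain ⟨u, hu, huy⟩ := exists_mem_ne h1 y
  rw [← hi u hu huy, hj u hu huy]

theorem xf1_mem {n : ℕ} (E : Finset (Finset (Fin n))) (W : Finset (Fin n)) (k : ℕ)
    (f : Fin n → ℕ) : f ∈ CC E W k ↔
      (∀ v, f v ∈ (if v ∈ W then Finset.Icc 1 k else ({0} : Finset ℕ))) ∧ Prp E W f := by
  classical
  unfold CC
  rw [Finset.mem_filter, Fintype.mem_piFinset]

open scoped Classical in
/-- the good edges of middle size at `y` -/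
noncomputable def xf1_S {n : ℕ} (E : Finset (Finset (Fin n))) (W W0 : Finset (Fin n)) (r : ℕ)
    (y : Fin n) : Finset (Finset (Fin n)) :=
  E.filter (fun e => e ⊆ univ \ W0 ∧ e ⊆ W ∧ y ∈ e ∧ 3 ≤ e.card ∧ e.card < r)

open scoped Classical in
/-- those which are monochromatic up to `y` -/
noncomputable def xf1_F {n : ℕ} (E : Finset (Finset (Fin n))) (W W0 : Finset (Fin n)) (r : ℕ)
    (y : Fin n) (f : Fin n → ℕ) : Finset (Finset (Fin n)) :=
  (xf1_S E W W0 r y).filter (fun e => ∃ i, ∀ u ∈ e.erase y, f u = i)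

theorem xf1_bk {n : ℕ} (D0 r k : ℕ) (E : Finset (Finset (Fin n))) (W W0 : Finset (Fin n))
    (f : Fin n → ℕ) (y : Fin n) (hT : Two E) (hr : 2 ≤ r)
    (hDeg : (E.filter (fun e => y ∈ e ∧ (e.card < 4 ∨
      (e.card < r ∧ (e ∩ W0).Nonempty)))).card ≤ D0) :
    bk E W k f y ≤ D0 + n / (r - 1) + (xf1_F E W W0 r y f).card := by
  classical
  unfold bk
  have hch : ∀ i, Blk E W f y i → ∃ e ∈ E, e ⊆ W ∧ y ∈ e ∧ ∀ u ∈ e, u ≠ y → f u = i :=
    fun i h => h
  choose! g hg1 hg2 hg3 hg4 using hch
  have hsplit : (Finset.Icc 1 k).filter (fun i => Blk E W f y i) ⊆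
      (((Finset.Icc 1 k).filter (fun i => Blk E W f y i ∧ ((g i).card < 4 ∨
          ((g i).card < r ∧ (g i ∩ W0).Nonempty)))) ∪
        ((Finset.Icc 1 k).filter (fun i => Blk E W f y i ∧ r ≤ (g i).card))) ∪
        ((Finset.Icc 1 k).filter (fun i => Blk E W f y i ∧ 4 ≤ (g i).card ∧ (g i).card < r ∧
          ¬ (g i ∩ W0).Nonempty)) := by
    intro i hi
    rw [xf1_mf] at hi
    rw [mem_union, mem_union, xf1_mf, xf1_mf, xf1_mf]
    by_cases h1 : (g i).card < 4
    · exact Or.inl (Or.inl ⟨hi.1, hi.2, Or.inl h1⟩)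
    · by_cases h2 : r ≤ (g i).card
      · exact Or.inl (Or.inr ⟨hi.1, hi.2, h2⟩)
      · by_cases h3 : (g i ∩ W0).Nonempty
        · exact Or.inl (Or.inl ⟨hi.1, hi.2, Or.inr ⟨by omega, h3⟩⟩)
        · exact Or.inr ⟨hi.1, hi.2, by omega, by omega, h3⟩
  have hA : ((Finset.Icc 1 k).filter (fun i => Blk E W f y i ∧ ((g i).card < 4 ∨
          ((g i).card < r ∧ (g i ∩ W0).Nonempty)))).card ≤ D0 := by
    refine le_trans ?_ hDeg
    refine Finset.card_le_card_of_injOn g ?_ ?_
    · intro i hi
      rw [mem_coe, xf1_mf] at hi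
      rw [mem_coe, xf1_mf]
      exact ⟨hg1 i hi.2.1, hg3 i hi.2.1, hi.2.2⟩
    · intro i hi j hj hij
      rw [mem_coe, xf1_mf] at hi hj
      refine xf1_det E hT f y i j (g i) (hg1 i hi.2.1) (hg4 i hi.2.1) ?_
      rw [hij]
      exact hg4 j hj.2.1
  have hC : ((Finset.Icc 1 k).filter (fun i => Blk E W f y i ∧ 4 ≤ (g i).card ∧
      (g i).card < r ∧ ¬ (g i ∩ W0).Nonempty)).card ≤ (xf1_F E W W0 r y f).card := by
    refine Finset.card_le_card_of_injOn g ?_ ?_
    · intro i hi
      rw [mem_coe, xf1_mf] at hi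
      obtain ⟨-, hb, h4, hlt, hne⟩ := hi
      rw [mem_coe]
      unfold xf1_F xf1_S
      rw [xf1_mf, xf1_mf]
      refine ⟨⟨hg1 i hb, ?_, hg2 i hb, hg3 i hb, by omega, hlt⟩, i, ?_⟩
      · intro u hu
        rw [mem_sdiff]
        exact ⟨mem_univ _, fun h => hne ⟨u, mem_inter.2 ⟨hu, h⟩⟩⟩
      · intro u hu
        rw [mem_erase] at hu
        exact hg4 i hb u hu.2 hu.1
    · intro i hi j hj hij
      rw [mem_coe, xf1_mf] at hi hj
      refine xf1_det E hT f y i j (g i) (hg1 i hi.2.1) (hg4 i hi.2.1) ?_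
      rw [hij]
      exact hg4 j hj.2.1
  have hB : ((Finset.Icc 1 k).filter (fun i => Blk E W f y i ∧ r ≤ (g i).card)).card ≤
      n / (r - 1) := by
    rw [Nat.le_div_iff_mul_le (by omega)]
    have h1 : ∀ i ∈ (Finset.Icc 1 k).filter (fun i => Blk E W f y i ∧ r ≤ (g i).card),
        r - 1 ≤ (Finset.univ.filter (fun v : Fin n => f v = i)).card := by
      intro i hi
      rw [xf1_mf] at hi
      have h2 : ((g i).erase y).card = (g i).card - 1 := card_erase_of_mem (hg3 i hi.2.1)
      have h3 : (g i).erase y ⊆ Finset.univ.filter (fun v : Fin n => f v = i) := by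
        intro u hu
        rw [mem_erase] at hu
        rw [xf1_mf]
        exact ⟨mem_univ _, hg4 i hi.2.1 u hu.2 hu.1⟩
      have h4 := card_le_card h3
      have h5 := hi.2.2
      omega
    have h2 := Finset.sum_le_sum h1
    rw [sum_const, smul_eq_mul] at h2
    refine le_trans h2 ?_
    have h3 : ∑ i ∈ (Finset.Icc 1 k).filter (fun i => Blk E W f y i ∧ r ≤ (g i).card),
        (Finset.univ.filter (fun v : Fin n => f v = i)).card =
        (((Finset.Icc 1 k).filter (fun i => Blk E W f y i ∧ r ≤ (g i).card)).biUnion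
          (fun i => Finset.univ.filter (fun v : Fin n => f v = i))).card := by
      rw [card_biUnion]
      intro i _ j _ hij
      rw [Function.onFun, disjoint_left]
      intro v hv hv2
      rw [xf1_mf] at hv hv2
      exact hij (by rw [← hv.2, hv2.2])
    rw [h3]
    refine le_trans (card_le_univ _) ?_
    rw [Fintype.card_fin]
  have h3 := card_le_card hsplit
  have h4 := card_union_le
    ((((Finset.Icc 1 k).filter (fun i => Blk E W f y i ∧ ((g i).card < 4 ∨
          ((g i).card < r ∧ (g i ∩ W0).Nonempty)))) ∪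
        ((Finset.Icc 1 k).filter (fun i => Blk E W f y i ∧ r ≤ (g i).card))))
    ((Finset.Icc 1 k).filter (fun i => Blk E W f y i ∧ 4 ≤ (g i).card ∧ (g i).card < r ∧
          ¬ (g i ∩ W0).Nonempty))
  have h5 := card_union_le
    ((Finset.Icc 1 k).filter (fun i => Blk E W f y i ∧ ((g i).card < 4 ∨
          ((g i).card < r ∧ (g i ∩ W0).Nonempty))))
    ((Finset.Icc 1 k).filter (fun i => Blk E W f y i ∧ r ≤ (g i).card))
  exact h3.trans (h4.trans (add_le_add (h5.trans (add_le_add hA hB)) hC))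

open scoped Classical in
theorem xf1_res {n : ℕ} (E : Finset (Finset (Fin n))) (P T : Finset (Fin n)) (k : ℕ) (a : Fin n)
    (ha : a ∈ T) :
    ((CC E P k).filter (fun f => ∃ i, ∀ u ∈ T, f u = i)).card ≤ PP E (P \ T.erase a) k := by
  unfold PP
  refine Finset.card_le_card_of_injOn (fun f => fun v => if v ∈ T.erase a then 0 else f v) ?_ ?_
  · intro f hf
    have hf' := Finset.mem_filter.mp (Finset.mem_coe.mp hf)
    refine Finset.mem_coe.mpr ?_
    rw [xf1_mem]
    obtain ⟨h1, h2⟩ := (xf1_mem E P k f).mp hf'.1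
    refine ⟨?_, ?_⟩
    · intro v
      show (if v ∈ T.erase a then 0 else f v) ∈
        (if v ∈ P \ T.erase a then Finset.Icc 1 k else ({0} : Finset ℕ))
      by_cases hv : v ∈ T.erase a
      · have hv2 : v ∉ P \ T.erase a := fun h => (mem_sdiff.1 h).2 hv
        rw [if_pos hv, if_neg hv2]
        exact mem_singleton_self 0
      · have h1v := h1 v
        by_cases hP : v ∈ P
        · rw [if_pos hP] at h1v
          rw [if_neg hv, if_pos (mem_sdiff.2 ⟨hP, hv⟩)]
          exact h1v
        · rw [if_neg hP] at h1v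
          rw [if_neg hv, if_neg (fun h => hP (mem_sdiff.1 h).1)]
          exact h1v
    · intro e he hsub
      have hsub' : e ⊆ P := hsub.trans sdiff_subset
      obtain ⟨u, hu, v, hv, huv⟩ := h2 e he hsub'
      refine ⟨u, hu, v, hv, ?_⟩
      have hu' := (mem_sdiff.1 (hsub hu)).2
      have hv' := (mem_sdiff.1 (hsub hv)).2
      show (if u ∈ T.erase a then 0 else f u) ≠ (if v ∈ T.erase a then 0 else f v)
      rw [if_neg hu', if_neg hv']
      exact huv
  · intro f hf g hg h
    obtain ⟨-, i, hi⟩ := Finset.mem_filter.mp (Finset.mem_coe.mp hf)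
    obtain ⟨-, j, hj⟩ := Finset.mem_filter.mp (Finset.mem_coe.mp hg)
    have key : ∀ v, v ∉ T.erase a → f v = g v := by
      intro v hv
      have h' : (if v ∈ T.erase a then 0 else f v) = (if v ∈ T.erase a then 0 else g v) :=
        congrFun h v
      rw [if_neg hv, if_neg hv] at h'
      exact h'
    funext v
    by_cases hv : v ∈ T.erase a
    · have ha' := key a (notMem_erase a T)
      rw [hi v (mem_of_mem_erase hv), hj v (mem_of_mem_erase hv), ← hi a ha, ← hj a ha]
      exact ha'
    · exact key v hv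

theorem xf1_step {n : ℕ} (D0 r k D : ℕ) (E : Finset (Finset (Fin n))) (W0 : Finset (Fin n))
    (h1 : ST_CNT) (hT : Two E) (hr : 2 ≤ r) (hD : D = D0 + n / (r - 1) + 1) (hDk : D < k)
    (hDeg : ∀ v, v ∉ W0 → (E.filter (fun e => v ∈ e ∧ (e.card < 4 ∨
      (e.card < r ∧ (e ∩ W0).Nonempty)))).card ≤ D0)
    (hws : ∀ v, v ∉ W0 → ws (E.filter (fun e => e ⊆ univ \ W0)) r (((k - D : ℕ) : ℝ)) v ≤ 1) :
    ∀ (m : ℕ) (W : Finset (Fin n)), W.card ≤ m → ∀ y ∈ W, y ∉ W0 →
      (k - D) * PP E (W.erase y) k ≤ PP E W k := by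
  classical
  intro m
  induction m with
  | zero =>
    intro W hW y hy
    rw [Nat.le_zero, card_eq_zero] at hW
    rw [hW] at hy
    exact absurd hy (notMem_empty y)
  | succ m ih =>
    intro W hW y hy hy0
    obtain ⟨P, hP⟩ : ∃ P, P = W.erase y := ⟨_, rfl⟩
    have hPc : P.card ≤ m := by
      have c2 := card_erase_of_mem hy
      rw [← hP] at c2
      omega
    have hch : ∀ T : Finset (Fin n), T ⊆ P → Disjoint T W0 →
        (k - D) ^ T.card * PP E (P \ T) k ≤ PP E P k := by
      intro T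
      induction T using Finset.induction_on with
      | empty => intro _ _; simp
      | insert a T ha ihT =>
        intro hsub hdis
        have hT1 : T ⊆ P := (subset_insert _ _).trans hsub
        have hT2 : Disjoint T W0 := disjoint_of_subset_left (subset_insert _ _) hdis
        have i1 := ihT hT1 hT2
        have ha1 : a ∈ P := hsub (mem_insert_self _ _)
        have ha2 : a ∉ W0 := disjoint_left.1 hdis (mem_insert_self _ _)
        have hcard : (P \ T).card ≤ m := (card_le_card sdiff_subset).trans hPc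
        have i2 := ih (P \ T) hcard a (mem_sdiff.2 ⟨ha1, ha⟩) ha2
        have heq : (P \ T).erase a = P \ insert a T := by
          ext v
          simp only [mem_erase, mem_sdiff, mem_insert, not_or]
          tauto
        rw [heq] at i2
        rw [card_insert_of_notMem ha, pow_succ, mul_assoc]
        exact (Nat.mul_le_mul_left _ i2).trans i1
    have hκ : (0 : ℝ) < ((k - D : ℕ) : ℝ) := by
      exact_mod_cast Nat.sub_pos_of_lt hDk
    have hedge : ∀ e ∈ xf1_S E W W0 r y,
        ((((CC E P k).filter (fun f => ∃ i, ∀ u ∈ e.erase y, f u = i)).card : ℕ) : ℝ) ≤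
          PP E P k * (1 / (((k - D : ℕ) : ℝ))) ^ (e.card - 2) := by
      intro e he
      unfold xf1_S at he
      rw [xf1_mf] at he
      obtain ⟨heE, he0, heW, hye, h3, hr'⟩ := he
      have hne : (e.erase y).Nonempty := by
        rw [← card_pos, card_erase_of_mem hye]
        omega
      obtain ⟨a, ha⟩ := hne
      have r1 := xf1_res E P (e.erase y) k a ha
      have r2 := hch ((e.erase y).erase a) (by
        intro u hu
        rw [hP]
        have hu1 := mem_erase.1 (mem_of_mem_erase hu)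
        exact mem_erase.2 ⟨hu1.1, heW hu1.2⟩) (by
        rw [disjoint_left]
        intro u hu
        have hu1 := mem_erase.1 (mem_of_mem_erase hu)
        exact (mem_sdiff.1 (he0 hu1.2)).2)
      have hc : ((e.erase y).erase a).card = e.card - 2 := by
        rw [card_erase_of_mem ha, card_erase_of_mem hye]
        omega
      rw [hc] at r2
      have r3 := (Nat.mul_le_mul_left ((k - D) ^ (e.card - 2)) r1).trans r2
      have r4 : (((k - D : ℕ) : ℝ)) ^ (e.card - 2) *
          ((((CC E P k).filter (fun f => ∃ i, ∀ u ∈ e.erase y, f u = i)).card : ℕ) : ℝ) ≤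
          PP E P k := by
        exact_mod_cast r3
      rw [one_div, inv_pow, ← div_eq_mul_inv, le_div_iff₀ (pow_pos hκ _), mul_comm]
      exact r4
    have hdc : ∑ f ∈ CC E P k, (xf1_F E W W0 r y f).card = ∑ e ∈ xf1_S E W W0 r y,
        ((CC E P k).filter (fun f => ∃ i, ∀ u ∈ e.erase y, f u = i)).card := by
      unfold xf1_F
      simp only [Finset.card_filter]
      exact Finset.sum_comm
    have hsum : (∑ f ∈ CC E P k, (((xf1_F E W W0 r y f).card : ℕ) : ℝ)) ≤ PP E P k := by
      have e1 : (∑ f ∈ CC E P k, (((xf1_F E W W0 r y f).card : ℕ) : ℝ)) =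
          ∑ e ∈ xf1_S E W W0 r y,
            ((((CC E P k).filter (fun f => ∃ i, ∀ u ∈ e.erase y, f u = i)).card : ℕ) : ℝ) := by
        exact_mod_cast hdc
      rw [e1]
      refine (sum_le_sum hedge).trans ?_
      rw [← mul_sum]
      have e2 : ∑ e ∈ xf1_S E W W0 r y, (1 / (((k - D : ℕ) : ℝ))) ^ (e.card - 2) ≤
          ws (E.filter (fun e => e ⊆ univ \ W0)) r (((k - D : ℕ) : ℝ)) y := by
        unfold ws
        refine sum_le_sum_of_subset_of_nonneg ?_ ?_
        · intro e he
          unfold xf1_S at he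
          rw [xf1_mf] at he
          rw [xf1_mf, xf1_mf]
          exact ⟨⟨he.1, he.2.1⟩, he.2.2.2⟩
        · intro e _ _
          exact pow_nonneg (by positivity) _
      have e3 := hws y hy0
      calc (PP E P k : ℝ) * ∑ e ∈ xf1_S E W W0 r y, (1 / (((k - D : ℕ) : ℝ))) ^ (e.card - 2)
          ≤ (PP E P k : ℝ) * 1 :=
            mul_le_mul_of_nonneg_left (e2.trans e3) (Nat.cast_nonneg _)
        _ = PP E P k := mul_one _
    have hb : ∑ f ∈ CC E P k, bk E W k f y ≤ D * PP E P k := by
      have b1 : ∑ f ∈ CC E P k, bk E W k f y ≤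
          ∑ f ∈ CC E P k, (D0 + n / (r - 1) + (xf1_F E W W0 r y f).card) :=
        sum_le_sum fun f _ => xf1_bk D0 r k E W W0 f y hT hr (hDeg y hy0)
      have b2 : ∑ f ∈ CC E P k, (D0 + n / (r - 1) + (xf1_F E W W0 r y f).card) =
          PP E P k * (D0 + n / (r - 1)) + ∑ f ∈ CC E P k, (xf1_F E W W0 r y f).card := by
        rw [sum_add_distrib, sum_const, smul_eq_mul]
        rfl
      have b3 : ∑ f ∈ CC E P k, (xf1_F E W W0 r y f).card ≤ PP E P k := by
        exact_mod_cast hsum
      have b4 : D * PP E P k = PP E P k * (D0 + n / (r - 1)) + PP E P k := by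
        rw [hD]
        ring
      rw [b4]
      rw [b2] at b1
      exact b1.trans (Nat.add_le_add_left b3 _)
    have c1 := (h1 n k E W y hT hy).1
    rw [← hP] at c1
    have c2 : k * PP E P k ≤ PP E W k + ∑ f ∈ CC E P k, bk E W k f y := by
      rw [c1, ← sum_add_distrib]
      have c3 : k * PP E P k = ∑ f ∈ CC E P k, k := by
        rw [sum_const, smul_eq_mul, mul_comm]
        rfl
      rw [c3]
      refine sum_le_sum fun f _ => ?_
      omega
    have f1 : (k - D) * PP E P k + D * PP E P k = k * PP E P k := by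
      rw [← add_mul, Nat.sub_add_cancel hDk.le]
    rw [← hP]
    omega

theorem st_XF1 (h1 : ST_CNT) (h2 : ST_GNUM) : ST_XF1 := by
  classical
  obtain ⟨n₀, h⟩ := h2
  refine ⟨n₀, ?_⟩
  intro n hn D0 r k E W0 hR hk W T hT0 hWT
  obtain ⟨hr4, -, hDk, -, hk4, hpos, hge, -, -⟩ := h n hn D0 r k hR.d0 hR.r0 hk
  have hDlt : DX n D0 r < k := by omega
  have hcast : (((k - DX n D0 r : ℕ)) : ℝ) = (k : ℝ) - DX n D0 r := by
    rw [Nat.cast_sub hDlt.le]
  have hws : ∀ v, v ∉ W0 →
      ws (E.filter (fun e => e ⊆ univ \ W0)) r (((k - DX n D0 r : ℕ)) : ℝ) v ≤ 1 := by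
    intro v hv
    have w1 := hR.wt v hv
    have w2 : ws (E.filter (fun e => e ⊆ univ \ W0)) r (((k - DX n D0 r : ℕ)) : ℝ) v ≤
        ws (E.filter (fun e => e ⊆ univ \ W0)) r (n / (2 * Real.log n)) v := by
      unfold ws
      refine sum_le_sum ?_
      intro e _
      refine pow_le_pow_left₀ (by positivity) ?_ _
      rw [hcast]
      exact one_div_le_one_div_of_le hpos hge
    linarith
  have hstep : ∀ (W : Finset (Fin n)) (y : Fin n), y ∈ W → y ∉ W0 →
      (k - DX n D0 r) * PP E (W.erase y) k ≤ PP E W k := fun W y hy hy0 =>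
    xf1_step D0 r k (DX n D0 r) E W0 h1 hR.two (by omega) rfl hDlt hR.deg hws W.card W le_rfl
      y hy hy0
  induction T using Finset.induction_on with
  | empty => simp
  | insert v U hv ih =>
    have hWU' : Disjoint W U := Finset.disjoint_of_subset_right (Finset.subset_insert _ _) hWT
    have hU0 : Disjoint U W0 := Finset.disjoint_of_subset_left (Finset.subset_insert _ _) hT0
    have hvW : v ∉ W := fun h => (Finset.disjoint_left.1 hWT) h (Finset.mem_insert_self _ _)
    have hv0 : v ∉ W0 := (Finset.disjoint_left.1 hT0) (Finset.mem_insert_self _ _)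
    have i1 := ih hU0 hWU'
    have hmem : v ∈ W ∪ insert v U := by simp
    have her : (W ∪ insert v U).erase v = W ∪ U := by
      ext w
      simp only [Finset.mem_erase, Finset.mem_union, Finset.mem_insert]
      constructor
      · rintro ⟨h1, h2 | h2 | h2⟩
        · exact Or.inl h2
        · exact absurd h2 h1
        · exact Or.inr h2
      · rintro (h | h)
        · exact ⟨fun e => hvW (e ▸ h), Or.inl h⟩
        · exact ⟨fun e => hv (e ▸ h), Or.inr (Or.inr h)⟩
    have i2 := hstep (W ∪ insert v U) v hmem hv0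
    rw [her] at i2
    rw [Finset.card_insert_of_notMem hv, pow_succ]
    calc (k - DX n D0 r) ^ U.card * (k - DX n D0 r) * PP E W k =
          (k - DX n D0 r) * ((k - DX n D0 r) ^ U.card * PP E W k) := by
          ring
      _ ≤ (k - DX n D0 r) * PP E (W ∪ U) k := Nat.mul_le_mul_left _ i1
      _ ≤ PP E (W ∪ insert v U) k := i2

end Pool.Agent.Helper5.WD
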